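import Pool.Agent.H301R2.SSE.Nine

/-! Integrals of rational functions with algebraic coefficients, without poles, over bounded
intervals with algebraic end points are linear forms in `1` and logarithms. -/

set_option autoImplicit false

namespace Pool.Agent.H206R2.OneVar

open Pool.Agent.H301R2.SSE Pool.Agent.H301R2.Nine Polynomial MeasureTheory

theorem hd (α : ℂ) (x : ℝ) : HasDerivAt (fun y : ℝ => (y : ℂ) - α) 1 x :=
  ((hasDerivAt_id x).ofReal_comp).sub_const α

theorem int_inv {a b : ℝ} (hab : a ≤ b) (α : ℂ) (h : ∀ x ∈ Set.Icc a b, (x : ℂ) - α ≠ 0) :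
    Complex.exp (∫ x in a..b, ((x : ℂ) - α)⁻¹) = ((b : ℂ) - α) / ((a : ℂ) - α) := by
  let g : ℝ → ℂ := fun y => ∫ x in a..y, ((x : ℂ) - α)⁻¹
  have hcont : ∀ x ∈ Set.Icc a b, ContinuousAt (fun y : ℝ => ((y : ℂ) - α)⁻¹) x := by
    intro x hx
    exact ((hd α x).continuousAt).inv₀ (h x hx)
  have hmeas : Measurable (fun y : ℝ => ((y : ℂ) - α)⁻¹) := by fun_prop
  have hg : ∀ x ∈ Set.Icc a b, HasDerivAt g (((x : ℂ) - α)⁻¹) x := by
    intro x hx
    refine intervalIntegral.integral_hasDerivAt_right ?_ ?_ (hcont x hx)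
    · apply ContinuousOn.intervalIntegrable
      intro y hy
      rw [Set.uIcc_of_le hx.1] at hy
      exact (hcont y ⟨hy.1, hy.2.trans hx.2⟩).continuousWithinAt
    · exact ⟨Set.univ, Filter.univ_mem, hmeas.aestronglyMeasurable⟩
  have hF : ∀ x ∈ Set.Icc a b,
      HasDerivAt (fun y : ℝ => Complex.exp (g y) * ((y : ℂ) - α)⁻¹) 0 x := by
    intro x hx
    have h1 := (hg x hx).cexp
    have h2 := (hd α x).inv (h x hx)
    have h3 := h1.mul h2
    refine h3.congr_deriv ?_
    have := h x hx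
    simp only [Pi.inv_apply]
    field_simp
    ring
  have hc := constant_of_has_deriv_right_zero
    (f := fun y : ℝ => Complex.exp (g y) * ((y : ℂ) - α)⁻¹)
    (fun x hx => (hF x hx).continuousAt.continuousWithinAt)
    (fun x hx => (hF x (Set.Ico_subset_Icc_self hx)).hasDerivWithinAt) b ⟨hab, le_refl b⟩
  have hga : g a = 0 := intervalIntegral.integral_same
  simp only [hga, Complex.exp_zero, one_mul] at hc
  have hb := h b ⟨hab, le_refl b⟩
  have ha := h a ⟨le_refl a, hab⟩
  change Complex.exp (g b) = _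
  field_simp
  field_simp at hc
  linear_combination hc

theorem int_inv_pow {a b : ℝ} (hab : a ≤ b) (α : ℂ) (h : ∀ x ∈ Set.Icc a b, (x : ℂ) - α ≠ 0)
    (m : ℕ) : ∫ x in a..b, (((x : ℂ) - α) ^ (m + 2))⁻¹
      = (-(((b : ℂ) - α) ^ (m + 1))⁻¹ / (m + 1)) - (-(((a : ℂ) - α) ^ (m + 1))⁻¹ / (m + 1)) := by
  have hm : (m : ℂ) + 1 ≠ 0 := by exact_mod_cast Nat.succ_ne_zero m
  refine intervalIntegral.integral_eq_sub_of_hasDerivAt
    (f := fun y : ℝ => -(((y : ℂ) - α) ^ (m + 1))⁻¹ / ((m : ℂ) + 1)) ?_ ?_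
  · intro x hx
    rw [Set.uIcc_of_le hab] at hx
    have hx' := h x hx
    have h1 := (((hd α x).pow (m + 1)).inv (pow_ne_zero _ hx')).neg.div_const ((m : ℂ) + 1)
    refine h1.congr_deriv ?_
    simp only [Pi.pow_apply, Nat.add_sub_cancel]
    push_cast
    field_simp
    ring
  · apply ContinuousOn.intervalIntegrable
    intro y hy
    rw [Set.uIcc_of_le hab] at hy
    exact (((hd α y).continuousAt.pow (m + 2)).inv₀ (pow_ne_zero _ (h y hy))).continuousWithinAt

theorem int_mono (a b : ℝ) (m : ℕ) :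
    ∫ x in a..b, (x : ℂ) ^ m = (b : ℂ) ^ (m + 1) / (m + 1) - (a : ℂ) ^ (m + 1) / (m + 1) := by
  have hm : (m : ℂ) + 1 ≠ 0 := by exact_mod_cast Nat.succ_ne_zero m
  refine intervalIntegral.integral_eq_sub_of_hasDerivAt
    (f := fun y : ℝ => (y : ℂ) ^ (m + 1) / ((m : ℂ) + 1)) ?_ ?_
  · intro x _
    have h1 := (((hasDerivAt_id x).ofReal_comp).pow (m + 1)).div_const ((m : ℂ) + 1)
    refine h1.congr_deriv ?_
    simp only [Nat.add_sub_cancel, id]
    push_cast
    field_simp
  · apply Continuous.intervalIntegrable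
    exact (Complex.continuous_ofReal).pow m

theorem algQB (α : QB) : IsAlgebraic ℚ (α : ℂ) := mem_QB.mp α.2

theorem alg_nat1 (m : ℕ) : IsAlgebraic ℚ ((m : ℂ) + 1) := (isAlgebraic_natCast m).add isAlgebraic_one

theorem cont_aeval (P : QB[X]) : Continuous (fun x : ℝ => aeval (x : ℂ) P) :=
  (Polynomial.continuous_aeval P).comp Complex.continuous_ofReal

theorem int_poly {a b : ℝ} (ha : IsAlgebraic ℚ (a : ℂ)) (hb : IsAlgebraic ℚ (b : ℂ)) (P : QB[X]) :
    (∫ x in a..b, aeval (x : ℂ) P) ∈ Lt := by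
  induction P using Polynomial.induction_on' with
  | add p q hp hq =>
    have e : (∫ x in a..b, aeval (x : ℂ) (p + q))
        = (∫ x in a..b, aeval (x : ℂ) p) + ∫ x in a..b, aeval (x : ℂ) q := by
      simp only [map_add]
      exact intervalIntegral.integral_add ((cont_aeval p).intervalIntegrable _ _)
        ((cont_aeval q).intervalIntegrable _ _)
    rw [e]
    exact Lt.add_mem hp hq
  | monomial n c =>
    have e : (∫ x in a..b, aeval (x : ℂ) (monomial n c)) = (c : ℂ) * ∫ x in a..b, (x : ℂ) ^ n := by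
      simp only [aeval_monomial]
      rw [← intervalIntegral.integral_const_mul]
      rfl
    rw [e, int_mono]
    refine Lt_mul (algQB c) (Lt_alg ?_)
    rw [div_eq_mul_inv, div_eq_mul_inv]
    exact ((hb.pow _).mul (alg_nat1 n).inv).sub ((ha.pow _).mul (alg_nat1 n).inv)

theorem cont_frac {a b : ℝ} (P S : QB[X]) (h : ∀ x ∈ Set.Icc a b, aeval (x : ℂ) S ≠ 0) :
    ContinuousOn (fun x : ℝ => aeval (x : ℂ) P / aeval (x : ℂ) S) (Set.Icc a b) :=
  (cont_aeval P).continuousOn.div (cont_aeval S).continuousOn h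

theorem ii_frac {a b : ℝ} (hab : a ≤ b) (P S : QB[X])
    (h : ∀ x ∈ Set.Icc a b, aeval (x : ℂ) S ≠ 0) :
    IntervalIntegrable (fun x : ℝ => aeval (x : ℂ) P / aeval (x : ℂ) S) volume a b := by
  apply ContinuousOn.intervalIntegrable
  rw [Set.uIcc_of_le hab]
  exact cont_frac P S h

/-- monic polynomial with roots `s` -/
noncomputable def den (s : Multiset QB) : QB[X] := (s.map (fun α => X - C α)).prod

theorem den_cons (α : QB) (s : Multiset QB) : den (α ::ₘ s) = (X - C α) * den s := by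
  simp [den]

theorem aev_lin (α : QB) (x : ℝ) : aeval (x : ℂ) (X - C α) = (x : ℂ) - (α : ℂ) := by
  simp only [map_sub, aeval_X, aeval_C]
  rfl

theorem den_ne {s : Multiset QB} {x : ℝ} (h : ∀ α ∈ s, (x : ℂ) - (α : ℂ) ≠ 0) :
    aeval (x : ℂ) (den s) ≠ 0 := by
  induction s using Multiset.induction_on with
  | empty => simp [den]
  | cons α s ih =>
    rw [den_cons, map_mul, aev_lin]
    exact mul_ne_zero (h α (Multiset.mem_cons_self α s))
      (ih (fun β hβ => h β (Multiset.mem_cons_of_mem hβ)))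

theorem int_frac {a b : ℝ} (hab : a ≤ b) (ha : IsAlgebraic ℚ (a : ℂ)) (hb : IsAlgebraic ℚ (b : ℂ)) :
    ∀ (n : ℕ) (s : Multiset QB), s.card = n →
      (∀ α ∈ s, ∀ x ∈ Set.Icc a b, (x : ℂ) - (α : ℂ) ≠ 0) →
      ∀ P : QB[X], (∫ x in a..b, aeval (x : ℂ) P / aeval (x : ℂ) (den s)) ∈ Lt := by
  intro n
  induction n with
  | zero =>
    intro s hs _ P
    rw [Multiset.card_eq_zero] at hs
    subst hs
    have e : (∫ x in a..b, aeval (x : ℂ) P / aeval (x : ℂ) (den 0))
        = ∫ x in a..b, aeval (x : ℂ) P := by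
      simp [den]
    rw [e]
    exact int_poly ha hb P
  | succ n ih =>
    intro s hs hne P
    have hden : ∀ x ∈ Set.Icc a b, aeval (x : ℂ) (den s) ≠ 0 := fun x hx =>
      den_ne (fun α hα => hne α hα x hx)
    obtain ⟨α, hα⟩ := Multiset.card_pos_iff_exists_mem.mp (by omega : 0 < s.card)
    obtain ⟨t, rfl⟩ := Multiset.exists_cons_of_mem hα
    have ht : t.card = n := by
      rw [Multiset.card_cons] at hs
      omega
    have hα' : ∀ x ∈ Set.Icc a b, (x : ℂ) - (α : ℂ) ≠ 0 := hne α hα
    have hnet : ∀ β ∈ t, ∀ x ∈ Set.Icc a b, (x : ℂ) - (β : ℂ) ≠ 0 := fun β hβ =>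
      hne β (Multiset.mem_cons_of_mem hβ)
    -- the case `P = 1`
    have hone : (∫ x in a..b, aeval (x : ℂ) (1 : QB[X]) / aeval (x : ℂ) (den (α ::ₘ t))) ∈ Lt := by
      by_cases hall : ∀ β ∈ t, β = α
      · have ht2 := Multiset.eq_replicate_of_mem hall
        rw [ht] at ht2
        have hd2 : den (α ::ₘ t) = (X - C α) ^ (n + 1) := by
          rw [ht2, den, Multiset.map_cons, Multiset.map_replicate, Multiset.prod_cons,
            Multiset.prod_replicate, pow_succ']
        have e : ∀ x : ℝ, aeval (x : ℂ) (1 : QB[X]) / aeval (x : ℂ) (den (α ::ₘ t))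
            = (((x : ℂ) - (α : ℂ)) ^ (n + 1))⁻¹ := by
          intro x
          rw [hd2, map_one, map_pow, aev_lin, one_div]
        simp only [e]
        have hxa := hα' a ⟨le_refl a, hab⟩
        have hxb := hα' b ⟨hab, le_refl b⟩
        have hga := ha.sub (algQB α)
        have hgb := hb.sub (algQB α)
        rcases n with _ | m
        · simp only [zero_add, pow_one]
          refine Lt_log ?_
          rw [int_inv hab _ hα', div_eq_mul_inv]
          exact hgb.mul hga.inv
        · rw [int_inv_pow hab _ hα' m]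
          refine Lt_alg ?_
          rw [div_eq_mul_inv, div_eq_mul_inv]
          exact (((hgb.pow _).inv.neg).mul (alg_nat1 m).inv).sub
            (((hga.pow _).inv.neg).mul (alg_nat1 m).inv)
      · push Not at hall
        obtain ⟨β, hβ, hne'⟩ := hall
        obtain ⟨u, rfl⟩ := Multiset.exists_cons_of_mem hβ
        have hu : u.card + 1 = n := by
          rw [Multiset.card_cons] at ht
          omega
        have hneu : ∀ γ ∈ u, ∀ x ∈ Set.Icc a b, (x : ℂ) - (γ : ℂ) ≠ 0 := fun γ hγ =>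
          hnet γ (Multiset.mem_cons_of_mem hγ)
        have hβ' : ∀ x ∈ Set.Icc a b, (x : ℂ) - (β : ℂ) ≠ 0 := hnet β hβ
        have hnea : ∀ γ ∈ α ::ₘ u, ∀ x ∈ Set.Icc a b, (x : ℂ) - (γ : ℂ) ≠ 0 := by
          intro γ hγ
          rcases Multiset.mem_cons.mp hγ with rfl | hγ
          · exact hα'
          · exact hneu γ hγ
        have hneb : ∀ γ ∈ β ::ₘ u, ∀ x ∈ Set.Icc a b, (x : ℂ) - (γ : ℂ) ≠ 0 := by
          intro γ hγ
          rcases Multiset.mem_cons.mp hγ with rfl | hγ
          · exact hβ'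
          · exact hneu γ hγ
        have i1 := ih (α ::ₘ u) (by rw [Multiset.card_cons]; exact hu) hnea 1
        have i2 := ih (β ::ₘ u) (by rw [Multiset.card_cons]; exact hu) hneb 1
        have hαβ : (α : ℂ) - (β : ℂ) ≠ 0 := by
          intro h0
          apply hne'
          exact (Subtype.ext (sub_eq_zero.mp h0)).symm
        have e : (∫ x in a..b, aeval (x : ℂ) (1 : QB[X]) / aeval (x : ℂ) (den (α ::ₘ β ::ₘ u)))
            = ((α : ℂ) - (β : ℂ))⁻¹ *
              ((∫ x in a..b, aeval (x : ℂ) (1 : QB[X]) / aeval (x : ℂ) (den (α ::ₘ u)))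
                - ∫ x in a..b, aeval (x : ℂ) (1 : QB[X]) / aeval (x : ℂ) (den (β ::ₘ u))) := by
          rw [← intervalIntegral.integral_sub
            (ii_frac hab _ _ (fun x hx => den_ne (fun γ hγ => hnea γ hγ x hx)))
            (ii_frac hab _ _ (fun x hx => den_ne (fun γ hγ => hneb γ hγ x hx))),
            ← intervalIntegral.integral_const_mul]
          apply intervalIntegral.integral_congr
          intro x hx
          rw [Set.uIcc_of_le hab] at hx
          have h1 := hα' x hx
          have h2 := hβ' x hx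
          have h3 : aeval (x : ℂ) (den u) ≠ 0 := den_ne (fun γ hγ => hneu γ hγ x hx)
          simp only [den_cons, map_mul, aev_lin, map_one]
          field_simp
          ring
        rw [e]
        exact Lt_mul ((algQB α).sub (algQB β)).inv (Lt.sub_mem i1 i2)
    obtain ⟨P', hP'⟩ := Polynomial.X_sub_C_dvd_sub_C_eval (a := α) (p := P)
    have e : (∫ x in a..b, aeval (x : ℂ) P / aeval (x : ℂ) (den (α ::ₘ t)))
        = ((P.eval α : QB) : ℂ) * (∫ x in a..b, aeval (x : ℂ) (1 : QB[X]) /
            aeval (x : ℂ) (den (α ::ₘ t))) + ∫ x in a..b, aeval (x : ℂ) P' /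
            aeval (x : ℂ) (den t) := by
      rw [← intervalIntegral.integral_const_mul, ← intervalIntegral.integral_add
        ((ii_frac hab _ _ hden).const_mul _)
        (ii_frac hab _ _ (fun x hx => den_ne (fun γ hγ => hnet γ hγ x hx)))]
      apply intervalIntegral.integral_congr
      intro x hx
      rw [Set.uIcc_of_le hab] at hx
      have h1 := hα' x hx
      have h3 : aeval (x : ℂ) (den t) ≠ 0 := den_ne (fun γ hγ => hnet γ hγ x hx)
      have h4 : aeval (x : ℂ) P = ((P.eval α : QB) : ℂ) + ((x : ℂ) - (α : ℂ)) * aeval (x : ℂ) P' := by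
        have h5 := congrArg (aeval (x : ℂ)) hP'
        rw [map_mul, aev_lin, map_sub, aeval_C] at h5
        have h6 : (algebraMap QB ℂ) (P.eval α) = ((P.eval α : QB) : ℂ) := rfl
        rw [h6] at h5
        linear_combination h5
      simp only [den_cons, map_mul, aev_lin, map_one, h4]
      field_simp
    rw [e]
    exact Lt.add_mem (Lt_mul (algQB _) hone) (ih t ht hnet P')

end Pool.Agent.H206R2.OneVar
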