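import Pool.Agent.H206R2.OneVar.A

/-! Integrable rational functions with algebraic coefficients over bounded intervals. -/

set_option autoImplicit false

namespace Pool.Agent.H206R2.OneVar

open Pool.Agent.H301R2.SSE Pool.Agent.H301R2.Nine Polynomial MeasureTheory

open scoped Topology

/-- the function -/
noncomputable def fr (P Q : QB[X]) (x : ℝ) : ℂ := aeval (x : ℂ) P / aeval (x : ℂ) Q

instance : IsAlgClosed QB := (algebraicClosure.isAlgClosure ℚ ℂ).isAlgClosed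

theorem zeros_finite {g : QB[X]} (hg : g ≠ 0) : {x : ℝ | aeval (x : ℂ) g = 0}.Finite := by
  have h1 := Polynomial.rootSet_finite g ℂ
  refine (h1.preimage (Complex.ofReal_injective.injOn)).subset ?_
  intro x hx
  rw [Set.mem_preimage, Polynomial.mem_rootSet]
  exact ⟨hg, hx⟩

theorem ae_ne {g : QB[X]} (hg : g ≠ 0) : ∀ᵐ x : ℝ, aeval (x : ℂ) g ≠ 0 := by
  have h := (zeros_finite hg).measure_zero volume
  rw [ae_iff]
  simpa using h

/-- reduction to coprime numerator and denominator -/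
theorem reduce (P Q : QB[X]) (hQ : Q ≠ 0) : ∃ P₁ Q₁ : QB[X], Q₁ ≠ 0 ∧ IsCoprime P₁ Q₁ ∧
    fr P Q =ᵐ[volume] fr P₁ Q₁ := by
  classical
  let g := EuclideanDomain.gcd P Q
  have hg : g ≠ 0 := by
    intro h
    exact hQ (EuclideanDomain.gcd_eq_zero_iff.mp h).2
  have h1 : g * (P / g) = P := EuclideanDomain.mul_div_cancel' hg (EuclideanDomain.gcd_dvd_left P Q)
  have h2 : g * (Q / g) = Q := EuclideanDomain.mul_div_cancel' hg (EuclideanDomain.gcd_dvd_right P Q)
  have h3 : g = P * EuclideanDomain.gcdA P Q + Q * EuclideanDomain.gcdB P Q :=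
    EuclideanDomain.gcd_eq_gcd_ab P Q
  refine ⟨P / g, Q / g, ?_, ⟨EuclideanDomain.gcdA P Q, EuclideanDomain.gcdB P Q, ?_⟩, ?_⟩
  · intro h
    rw [h, mul_zero] at h2
    exact hQ h2.symm
  · apply mul_left_cancel₀ hg
    linear_combination (EuclideanDomain.gcdA P Q) * h1 + (EuclideanDomain.gcdB P Q) * h2 - h3
  · filter_upwards [ae_ne hg] with x hx
    unfold fr
    conv_lhs => rw [← h1, ← h2]
    rw [map_mul, map_mul, mul_div_mul_left _ _ hx]

theorem no_pole {a b : ℝ} (hab : a < b) {P Q : QB[X]} (hQ : Q ≠ 0) (hc : IsCoprime P Q)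
    (hint : IntervalIntegrable (fr P Q) volume a b) : ∀ x ∈ Set.Icc a b, aeval (x : ℂ) Q ≠ 0 := by
  intro c hcm h0
  have hP : aeval (c : ℂ) P ≠ 0 := by
    intro hP
    obtain ⟨u, v, huv⟩ := hc
    have := congrArg (aeval (c : ℂ)) huv
    rw [map_add, map_mul, map_mul, hP, h0, map_one, mul_zero, mul_zero, add_zero] at this
    exact zero_ne_one this
  refine not_intervalIntegrable_of_sub_inv_isBigO_punctured (f := fr P Q) (c := c) ?_ hab.ne
    (by rw [Set.uIcc_of_le hab.le]; exact hcm) hint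
  have hder : HasDerivAt (fun x : ℝ => aeval (x : ℂ) Q)
      (aeval (c : ℂ) (derivative Q)) c := by
    have h1 := (Polynomial.hasDerivAt_aeval Q (c : ℂ)).comp_ofReal
    exact h1
  have hO1 : (fun x : ℝ => aeval (x : ℂ) Q) =O[𝓝[≠] c] (fun x : ℝ => x - c) := by
    have h1 := hder.differentiableAt.isBigO_sub
    have h2 : (fun x : ℝ => aeval (x : ℂ) Q - aeval (c : ℂ) Q) = fun x : ℝ => aeval (x : ℂ) Q := by
      funext x; rw [h0, sub_zero]
    rw [h2] at h1
    exact h1.mono nhdsWithin_le_nhds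
  have hev : ∀ᶠ x : ℝ in 𝓝[≠] c, aeval (x : ℂ) Q ≠ 0 := by
    have hf := zeros_finite hQ
    have h1 : ({x : ℝ | aeval (x : ℂ) Q = 0} \ {c})ᶜ ∈ 𝓝 c := by
      apply IsOpen.mem_nhds
      · exact (hf.subset Set.sdiff_subset).isClosed.isOpen_compl
      · simp
    filter_upwards [mem_nhdsWithin_of_mem_nhds h1, self_mem_nhdsWithin] with x hx hx' h
    exact hx ⟨h, hx'⟩
  have hO2 : (fun x : ℝ => (x - c)⁻¹) =O[𝓝[≠] c] (fun x : ℝ => (aeval (x : ℂ) Q)⁻¹) := by
    refine hO1.inv_rev ?_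
    filter_upwards [hev] with x hx h
    exact absurd h hx
  have hPt : Filter.Tendsto (fun x : ℝ => aeval (x : ℂ) P) (𝓝[≠] c) (𝓝 (aeval (c : ℂ) P)) :=
    ((cont_aeval P).tendsto c).mono_left nhdsWithin_le_nhds
  have hO3 : (fun x : ℝ => (aeval (x : ℂ) P)⁻¹) =O[𝓝[≠] c] (fun _ : ℝ => (1 : ℂ)) :=
    (hPt.inv₀ hP).isBigO_one ℂ
  have hO4 := hO3.mul (Asymptotics.isBigO_refl (fr P Q) (𝓝[≠] c))
  have hevP : ∀ᶠ x : ℝ in 𝓝[≠] c, aeval (x : ℂ) P ≠ 0 := hPt.eventually_ne hP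
  refine hO2.trans (hO4.congr' ?_ ?_)
  · filter_upwards [hevP] with x hx
    unfold fr
    field_simp
  · filter_upwards with x
    rw [one_mul]

theorem bdd {a b : ℝ} (hab : a < b) (ha : IsAlgebraic ℚ (a : ℂ)) (hb : IsAlgebraic ℚ (b : ℂ))
    (P Q : QB[X]) (hint : IntegrableOn (fr P Q) (Set.Ioo a b)) :
    (∫ x in Set.Ioo a b, fr P Q x) ∈ Lt := by
  by_cases hQ : Q = 0
  · subst hQ
    have e : (∫ x in Set.Ioo a b, fr P 0 x) = 0 := by simp [fr]
    rw [e]; exact Lt.zero_mem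
  obtain ⟨P₁, Q₁, hQ₁, hc, hae⟩ := reduce P Q hQ
  have e : (∫ x in Set.Ioo a b, fr P Q x) = ∫ x in a..b, fr P₁ Q₁ x := by
    rw [intervalIntegral.integral_of_le hab.le, integral_Ioc_eq_integral_Ioo]
    exact integral_congr_ae (ae_restrict_of_ae hae)
  have hint' : IntervalIntegrable (fr P₁ Q₁) volume a b := by
    rw [intervalIntegrable_iff_integrableOn_Ioo_of_le hab.le]
    exact hint.congr (ae_restrict_of_ae hae)
  have hnp := no_pole hab hQ₁ hc hint'
  rw [e]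
  have hsplit : Q₁ = C Q₁.leadingCoeff * den Q₁.roots :=
    (IsAlgClosed.splits Q₁).eq_prod_roots
  have hlc : (Q₁.leadingCoeff) ≠ 0 := leadingCoeff_ne_zero.mpr hQ₁
  have e2 : (∫ x in a..b, fr P₁ Q₁ x) = ∫ x in a..b, aeval (x : ℂ) (C (Q₁.leadingCoeff⁻¹) * P₁) /
      aeval (x : ℂ) (den Q₁.roots) := by
    apply intervalIntegral.integral_congr
    intro x hx
    unfold fr
    conv_lhs => rw [hsplit]
    have h1 : aeval (x : ℂ) (C Q₁.leadingCoeff) ≠ 0 := by
      rw [aeval_C]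
      exact (_root_.map_ne_zero _).mpr hlc
    simp only [map_mul, aeval_C, map_inv₀] at h1 ⊢
    field_simp
  rw [e2]
  refine int_frac hab.le ha hb _ Q₁.roots rfl ?_ _
  intro α hα x hx h0
  apply hnp x hx
  have h1 : (x : ℂ) = (α : ℂ) := sub_eq_zero.mp h0
  rw [h1]
  have h2 : Q₁.eval α = 0 := (mem_roots hQ₁).mp hα
  have h3 : aeval (α : ℂ) Q₁ = ((Q₁.eval α : QB) : ℂ) := by
    have := Polynomial.aeval_algebraMap_apply_eq_algebraMap_eval (A := ℂ) α Q₁
    exact this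
  rw [h3, h2]
  rfl

end Pool.Agent.H206R2.OneVar
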