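import Pool.Agent.H206R2.OneVar.B

/-! Integrable rational functions with algebraic coefficients over unbounded intervals, and over
finite unions of intervals. -/

set_option autoImplicit false

namespace Pool.Agent.H206R2.OneVar

open Pool.Agent.H301R2.SSE Pool.Agent.H301R2.Nine Polynomial MeasureTheory

open scoped Topology

theorem ev_rev (P : QB[X]) {x : ℝ} (hx : x ≠ 0) :
    aeval ((x⁻¹ : ℝ) : ℂ) P = aeval (x : ℂ) P.reverse * ((x : ℂ)⁻¹) ^ P.natDegree := by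
  have hx' : (x : ℂ) ≠ 0 := by exact_mod_cast hx
  let _ : Invertible ((x : ℂ)⁻¹) := invertibleOfNonzero (inv_ne_zero hx')
  have h := Polynomial.eval₂_reverse_mul_pow (algebraMap QB ℂ) ((x : ℂ)⁻¹) P
  rw [invOf_eq_inv, inv_inv] at h
  rw [Complex.ofReal_inv, aeval_def, aeval_def]
  exact h.symm

theorem fr_inv (P Q : QB[X]) {x : ℝ} (hx : x ≠ 0) :
    ((x ^ 2)⁻¹ : ℝ) • fr P Q x⁻¹
      = fr (P.reverse * X ^ Q.natDegree) (Q.reverse * X ^ (P.natDegree + 2)) x := by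
  have hx' : (x : ℂ) ≠ 0 := by exact_mod_cast hx
  unfold fr
  rw [ev_rev P hx, ev_rev Q hx]
  simp only [map_mul, map_pow, aeval_X, Complex.real_smul]
  push_cast
  simp only [inv_pow]
  by_cases hQ : aeval (x : ℂ) Q.reverse = 0
  · simp [hQ]
  · have h1 : (x : ℂ) ^ P.natDegree ≠ 0 := pow_ne_zero _ hx'
    have h2 : (x : ℂ) ^ Q.natDegree ≠ 0 := pow_ne_zero _ hx'
    rw [pow_add]
    field_simp

theorem Iup {N : ℝ} (hN : 0 < N) (halg : IsAlgebraic ℚ (N : ℂ)) (P Q : QB[X])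
    (hint : IntegrableOn (fr P Q) (Set.Ioi N)) : (∫ x in Set.Ioi N, fr P Q x) ∈ Lt := by
  let g : ℝ → ℂ := (Set.Ioi N).indicator (fr P Q)
  have hN' : 0 < N⁻¹ := inv_pos.mpr hN
  have key : ∀ x ∈ Set.Ioi (0 : ℝ), (|(-1 : ℝ)| * x ^ ((-1 : ℝ) - 1)) • g (x ^ (-1 : ℝ))
      = (Set.Ioo 0 N⁻¹).indicator
        (fr (P.reverse * X ^ Q.natDegree) (Q.reverse * X ^ (P.natDegree + 2))) x := by
    intro x hx
    have hx0 : (0 : ℝ) < x := hx
    have e1 : x ^ (-1 : ℝ) = x⁻¹ := Real.rpow_neg_one x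
    have e2 : |(-1 : ℝ)| * x ^ ((-1 : ℝ) - 1) = (x ^ 2)⁻¹ := by
      rw [abs_neg, abs_one, one_mul, show ((-1 : ℝ) - 1) = -((2 : ℕ) : ℝ) by norm_num,
        Real.rpow_neg hx0.le, Real.rpow_natCast]
    rw [e1, e2]
    by_cases h : x < N⁻¹
    · have h1 : N < x⁻¹ := by
        rw [lt_inv_comm₀ hN hx0]; exact h
      rw [Set.indicator_of_mem (show x ∈ Set.Ioo 0 N⁻¹ from ⟨hx0, h⟩)]
      simp only [g]
      rw [Set.indicator_of_mem (show x⁻¹ ∈ Set.Ioi N from h1)]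
      exact fr_inv P Q hx0.ne'
    · have h1 : ¬ N < x⁻¹ := by
        rw [lt_inv_comm₀ hN hx0]; exact h
      rw [Set.indicator_of_notMem (fun hm => h hm.2)]
      simp only [g]
      rw [Set.indicator_of_notMem (show x⁻¹ ∉ Set.Ioi N from h1), smul_zero]
  have hsub : Set.Ioi N ⊆ Set.Ioi (0 : ℝ) := Set.Ioi_subset_Ioi hN.le
  have hsub2 : Set.Ioo 0 N⁻¹ ⊆ Set.Ioi (0 : ℝ) := fun x hx => hx.1
  have e3 : (∫ x in Set.Ioi N, fr P Q x) = ∫ y in Set.Ioi (0 : ℝ), g y := by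
    simp only [g]
    rw [setIntegral_indicator measurableSet_Ioi, Set.inter_eq_right.mpr hsub]
  have e4 := integral_comp_rpow_Ioi g (p := -1) (by norm_num)
  have e5 : (∫ y in Set.Ioi (0 : ℝ), g y) = ∫ x in Set.Ioo 0 N⁻¹,
      fr (P.reverse * X ^ Q.natDegree) (Q.reverse * X ^ (P.natDegree + 2)) x := by
    rw [← e4, setIntegral_congr_fun measurableSet_Ioi key,
      setIntegral_indicator measurableSet_Ioo, Set.inter_eq_right.mpr hsub2]
  rw [e3, e5]
  refine bdd hN' (by simpa using isAlgebraic_zero) ?_ _ _ ?_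
  · rw [Complex.ofReal_inv]; exact halg.inv
  · have h1 : IntegrableOn g (Set.Ioi (0 : ℝ)) := by
      simp only [g]
      rw [integrableOn_indicator_iff measurableSet_Ioi]
      exact hint.mono_set Set.inter_subset_left
    have h2 := (integrableOn_Ioi_comp_rpow_iff g (p := -1) (by norm_num)).mpr h1
    have h3 := (integrableOn_congr_fun key measurableSet_Ioi).mp h2
    rw [integrableOn_indicator_iff measurableSet_Ioo, Set.inter_eq_left.mpr hsub2] at h3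
    exact h3

theorem exists_nat (b : ℝ) : ∃ N : ℕ, 0 < (N : ℝ) ∧ b < N := by
  obtain ⟨N, hN⟩ := exists_nat_gt (max b 0)
  exact ⟨N, lt_of_le_of_lt (le_max_right _ _) hN, lt_of_le_of_lt (le_max_left _ _) hN⟩

theorem Iup' {b : ℝ} (halg : IsAlgebraic ℚ (b : ℂ)) (P Q : QB[X])
    (hint : IntegrableOn (fr P Q) (Set.Ioi b)) : (∫ x in Set.Ioi b, fr P Q x) ∈ Lt := by
  obtain ⟨N, hN, hb⟩ := exists_nat b
  have h1 : Set.Ioi b = Set.Ioc b N ∪ Set.Ioi (N : ℝ) := (Set.Ioc_union_Ioi_eq_Ioi hb.le).symm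
  have i1 : IntegrableOn (fr P Q) (Set.Ioc b N) := hint.mono_set (by
    rw [h1]; exact Set.subset_union_left)
  have i2 : IntegrableOn (fr P Q) (Set.Ioi (N : ℝ)) := hint.mono_set (by
    rw [h1]; exact Set.subset_union_right)
  have hN2 : IsAlgebraic ℚ (((N : ℕ) : ℝ) : ℂ) := by
    have := isAlgebraic_natCast (R := ℚ) (A := ℂ) N
    simpa using this
  rw [h1, setIntegral_union (Set.Ioc_disjoint_Ioi le_rfl) measurableSet_Ioi i1 i2]
  refine Lt.add_mem ?_ (Iup hN hN2 P Q i2)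
  rw [integral_Ioc_eq_integral_Ioo]
  exact bdd hb halg hN2 P Q (i1.mono_set Set.Ioo_subset_Ioc_self)

theorem fr_neg (P Q : QB[X]) (x : ℝ) : fr P Q (-x) = fr (P.comp (-X)) (Q.comp (-X)) x := by
  unfold fr
  simp [aeval_comp]

theorem Ilo {b : ℝ} (halg : IsAlgebraic ℚ (b : ℂ)) (P Q : QB[X])
    (hint : IntegrableOn (fr P Q) (Set.Iio b)) : (∫ x in Set.Iio b, fr P Q x) ∈ Lt := by
  have h1 : (∫ x in Set.Iio b, fr P Q x) = ∫ x in Set.Ioi (-b), fr (P.comp (-X)) (Q.comp (-X)) x := by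
    have h2 := integral_comp_neg_Ioi (-b) (fr P Q)
    rw [neg_neg, integral_Iic_eq_integral_Iio] at h2
    rw [← h2]
    simp only [fr_neg]
  rw [h1]
  refine Iup' (by simpa using halg.neg) _ _ ?_
  have h3 : (fr (P.comp (-X)) (Q.comp (-X))) = (fr P Q) ∘ (fun x : ℝ => -x) := by
    funext x
    exact (fr_neg P Q x).symm
  have h4 : Set.Ioi (-b) = (fun x : ℝ => -x) ⁻¹' (Set.Iio b) := by
    ext x
    simp
  rw [h3, h4]
  exact ((Measure.measurePreserving_neg (volume : Measure ℝ)).integrableOn_comp_preimage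
    (MeasurableEquiv.neg ℝ).measurableEmbedding).mpr hint

/-- intervals with algebraic end points -/
def AI (J : Set ℝ) : Prop := J = Set.univ ∨ (∃ a : ℝ, IsAlgebraic ℚ (a : ℂ) ∧ J = Set.Ioi a) ∨
  (∃ a : ℝ, IsAlgebraic ℚ (a : ℂ) ∧ J = Set.Iio a) ∨
  (∃ a b : ℝ, IsAlgebraic ℚ (a : ℂ) ∧ IsAlgebraic ℚ (b : ℂ) ∧ a < b ∧ J = Set.Ioo a b)

theorem AI.meas {J : Set ℝ} (h : AI J) : MeasurableSet J := by
  rcases h with rfl | ⟨a, _, rfl⟩ | ⟨a, _, rfl⟩ | ⟨a, b, _, _, _, rfl⟩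
  · exact MeasurableSet.univ
  · exact measurableSet_Ioi
  · exact measurableSet_Iio
  · exact measurableSet_Ioo

theorem AI.conn {J : Set ℝ} (h : AI J) : IsPreconnected J := by
  rcases h with rfl | ⟨a, _, rfl⟩ | ⟨a, _, rfl⟩ | ⟨a, b, _, _, _, rfl⟩
  · exact isPreconnected_univ
  · exact isPreconnected_Ioi
  · exact isPreconnected_Iio
  · exact isPreconnected_Ioo

theorem AI.lt {J : Set ℝ} (h : AI J) {c : ℝ} (hc : c ∈ J) (halg : IsAlgebraic ℚ (c : ℂ)) :
    AI (J ∩ Set.Iio c) := by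
  rcases h with rfl | ⟨a, ha, rfl⟩ | ⟨a, ha, rfl⟩ | ⟨a, b, ha, hb, hab, rfl⟩
  · rw [Set.univ_inter]
    exact Or.inr (Or.inr (Or.inl ⟨c, halg, rfl⟩))
  · rw [Set.Ioi_inter_Iio]
    exact Or.inr (Or.inr (Or.inr ⟨a, c, ha, halg, hc, rfl⟩))
  · rw [Set.Iio_inter_Iio, min_eq_right (le_of_lt hc)]
    exact Or.inr (Or.inr (Or.inl ⟨c, halg, rfl⟩))
  · refine Or.inr (Or.inr (Or.inr ⟨a, c, ha, halg, hc.1, ?_⟩))
    rw [Set.Ioo_inter_Iio, min_eq_right hc.2.le]

theorem AI.gt {J : Set ℝ} (h : AI J) {c : ℝ} (hc : c ∈ J) (halg : IsAlgebraic ℚ (c : ℂ)) :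
    AI (J ∩ Set.Ioi c) := by
  rcases h with rfl | ⟨a, ha, rfl⟩ | ⟨a, ha, rfl⟩ | ⟨a, b, ha, hb, hab, rfl⟩
  · rw [Set.univ_inter]
    exact Or.inr (Or.inl ⟨c, halg, rfl⟩)
  · rw [Set.Ioi_inter_Ioi, max_eq_right (le_of_lt hc)]
    exact Or.inr (Or.inl ⟨c, halg, rfl⟩)
  · rw [Set.inter_comm, Set.Ioi_inter_Iio]
    exact Or.inr (Or.inr (Or.inr ⟨c, a, halg, ha, hc, rfl⟩))
  · refine Or.inr (Or.inr (Or.inr ⟨c, b, halg, hb, hc.2, ?_⟩))
    rw [Set.Ioo_inter_Ioi, max_eq_right hc.1.le]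

theorem split_at {D : Set ℝ} (c : ℝ) (f : ℝ → ℂ) (hint : IntegrableOn f D) :
    (∫ x in D, f x) = (∫ x in D ∩ Set.Iio c, f x) + ∫ x in D ∩ Set.Ioi c, f x := by
  have h1 : D =ᵐ[volume] ((D ∩ Set.Iio c) ∪ (D ∩ Set.Ioi c) : Set ℝ) := by
    have h2 : ∀ᵐ x : ℝ, x ≠ c := by
      rw [ae_iff]
      simp
    filter_upwards [h2] with x hx
    apply propext
    constructor
    · intro h
      rcases lt_or_gt_of_ne hx with h' | h'
      · exact Or.inl ⟨h, h'⟩
      · exact Or.inr ⟨h, h'⟩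
    · rintro (h | h)
      · exact h.1
      · exact h.1
  rw [setIntegral_congr_set h1]
  have h3 : D ∩ Set.Iio c ∪ D ∩ Set.Ioi c = D ∩ (Set.Iio c ∪ Set.Ioi c) :=
    (Set.inter_union_distrib_left D _ _).symm
  have e1 : ∫ x in D ∩ Set.Iio c ∪ D ∩ Set.Ioi c, f x
      = (∫ x in (D ∩ Set.Iio c ∪ D ∩ Set.Ioi c) ∩ Set.Iio c, f x) +
        ∫ x in (D ∩ Set.Iio c ∪ D ∩ Set.Ioi c) \ Set.Iio c, f x := by
    rw [integral_inter_add_sdiff measurableSet_Iio]
    exact hint.mono_set (by rw [h3]; exact Set.inter_subset_left)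
  rw [e1]
  congr 2
  · congr 1
    ext x
    constructor
    · rintro ⟨h | h, h'⟩
      · exact h
      · exact absurd (lt_trans (Set.mem_Ioi.mp h.2) (Set.mem_Iio.mp h')) (lt_irrefl _)
    · intro h
      exact ⟨Or.inl h, h.2⟩
  · congr 1
    ext x
    constructor
    · rintro ⟨h | h, h'⟩
      · exact absurd h.2 h'
      · exact h
    · intro h
      exact ⟨Or.inr h, fun h' => lt_asymm (Set.mem_Ioi.mp h.2) (Set.mem_Iio.mp h')⟩

theorem univ_good (P Q : QB[X]) (hint : IntegrableOn (fr P Q) Set.univ) :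
    (∫ x in Set.univ, fr P Q x) ∈ Lt := by
  rw [split_at 0 _ hint, Set.univ_inter, Set.univ_inter]
  have h0 : IsAlgebraic ℚ ((0 : ℝ) : ℂ) := by simpa using isAlgebraic_zero
  exact Lt.add_mem (Ilo h0 P Q (hint.mono_set (Set.subset_univ _)))
    (Iup' h0 P Q (hint.mono_set (Set.subset_univ _)))

theorem AI.good {J : Set ℝ} (h : AI J) (P Q : QB[X]) (hint : IntegrableOn (fr P Q) J) :
    (∫ x in J, fr P Q x) ∈ Lt := by
  rcases h with rfl | ⟨a, ha, rfl⟩ | ⟨a, ha, rfl⟩ | ⟨a, b, ha, hb, hab, rfl⟩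
  · exact univ_good P Q hint
  · exact Iup' ha P Q hint
  · exact Ilo ha P Q hint
  · exact bdd hab ha hb P Q hint

/-- locally constant off a finite set of algebraic numbers -/
theorem tame (P Q : QB[X]) (D : Set ℝ) :
    ∀ (n : ℕ) (Z : Finset ℝ), Z.card = n → (∀ z ∈ Z, IsAlgebraic ℚ (z : ℂ)) →
      ∀ J : Set ℝ, AI J →
        (∀ J' : Set ℝ, IsPreconnected J' → J' ⊆ J → (∀ z ∈ Z, z ∉ J') →
          J' ⊆ D ∨ Disjoint J' D) →
        IntegrableOn (fr P Q) (D ∩ J) → (∫ x in D ∩ J, fr P Q x) ∈ Lt := by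
  classical
  intro n
  induction n with
  | zero =>
    intro Z hZ _ J hJ hloc hint
    rw [Finset.card_eq_zero] at hZ
    subst hZ
    rcases hloc J hJ.conn (subset_refl _) (by simp) with h | h
    · rw [Set.inter_eq_right.mpr h] at hint ⊢
      exact hJ.good P Q hint
    · rw [Set.inter_comm, h.inter_eq, setIntegral_empty]
      exact Lt.zero_mem
  | succ n ih =>
    intro Z hZ hZa J hJ hloc hint
    obtain ⟨c, hc⟩ := Finset.card_pos.mp (by omega : 0 < Z.card)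
    have hcard : (Z.erase c).card = n := by rw [Finset.card_erase_of_mem hc]; omega
    have hZa' : ∀ z ∈ Z.erase c, IsAlgebraic ℚ (z : ℂ) := fun z hz =>
      hZa z (Finset.mem_of_mem_erase hz)
    by_cases hcJ : c ∈ J
    · rw [split_at c _ hint, Set.inter_assoc, Set.inter_assoc]
      have hJ1 := hJ.lt hcJ (hZa c hc)
      have hJ2 := hJ.gt hcJ (hZa c hc)
      refine Lt.add_mem (ih (Z.erase c) hcard hZa' _ hJ1 ?_
        (hint.mono_set (Set.inter_subset_inter_right D Set.inter_subset_left)))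
        (ih (Z.erase c) hcard hZa' _ hJ2 ?_
        (hint.mono_set (Set.inter_subset_inter_right D Set.inter_subset_left)))
      · intro J' hJ' hsub hdis
        refine hloc J' hJ' (hsub.trans Set.inter_subset_left) (fun z hz hzJ => ?_)
        by_cases hzc : z = c
        · subst hzc
          exact lt_irrefl _ (Set.mem_Iio.mp (hsub hzJ).2)
        · exact hdis z (Finset.mem_erase.mpr ⟨hzc, hz⟩) hzJ
      · intro J' hJ' hsub hdis
        refine hloc J' hJ' (hsub.trans Set.inter_subset_left) (fun z hz hzJ => ?_)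
        by_cases hzc : z = c
        · subst hzc
          exact lt_irrefl _ (Set.mem_Ioi.mp (hsub hzJ).2)
        · exact hdis z (Finset.mem_erase.mpr ⟨hzc, hz⟩) hzJ
    · refine ih (Z.erase c) hcard hZa' J hJ ?_ hint
      intro J' hJ' hsub hdis
      refine hloc J' hJ' hsub (fun z hz hzJ => ?_)
      by_cases hzc : z = c
      · subst hzc
        exact hcJ (hsub hzJ)
      · exact hdis z (Finset.mem_erase.mpr ⟨hzc, hz⟩) hzJ

end Pool.Agent.H206R2.OneVar
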