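import Pool.Agent.H206R2.OneVar.C
import Pool.Agent.H301R2.SSE.Nine2

/-! Periods in one variable are linear forms in `1` and logarithms. -/

set_option autoImplicit false

namespace Pool.Agent.H206R2.OneVar

open Pool.Agent.H301R2.SSE Pool.Agent.H301R2.Nine Polynomial MeasureTheory

/-- the field of real algebraic numbers -/
noncomputable abbrev RA : IntermediateField ℚ ℝ := algebraicClosure ℚ ℝ

/-- `x` is a period in one variable: a finite sum of absolutely convergent integrals of rational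
functions with real algebraic coefficients over subsets of `ℝ` given by polynomial inequalities
with real algebraic coefficients. -/
def OneVariablePeriod (x : ℝ) : Prop :=
  ∃ (k : ℕ) (m : Fin k → ℕ) (p : ∀ j : Fin k, Fin (m j) → RA[X]) (P Q : Fin k → RA[X]),
    (∀ j, IntegrableOn (fun y : ℝ => aeval y (P j) / aeval y (Q j))
      {y : ℝ | ∀ i, 0 ≤ aeval y (p j i)}) ∧
    x = ∑ j, ∫ y in {y : ℝ | ∀ i, 0 ≤ aeval y (p j i)}, aeval y (P j) / aeval y (Q j)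

instance : Algebra.IsAlgebraic ℚ RA := algebraicClosure.isAlgebraic ℚ ℝ

instance : Algebra.IsAlgebraic ℚ QB := algebraicClosure.isAlgebraic ℚ ℂ

theorem RA_alg (a : RA) : IsAlgebraic ℚ (a : ℝ) := mem_algebraicClosure_iff.mp a.2

noncomputable def iot : RA →+* QB where
  toFun a := ⟨((a : ℝ) : ℂ), mem_QB.mpr (toC (RA_alg a))⟩
  map_one' := by ext; simp
  map_mul' a b := by ext; simp
  map_zero' := by ext; simp
  map_add' a b := by ext; simp

theorem ev_map (P : RA[X]) (x : ℝ) : aeval (x : ℂ) (P.map iot) = ((aeval x P : ℝ) : ℂ) := by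
  have h1 : (algebraMap QB ℂ).comp iot = Complex.ofRealHom.comp (algebraMap RA ℝ) := by
    ext a
    rfl
  rw [aeval_def, eval₂_map, h1, aeval_def]
  exact (Polynomial.hom_eval₂ P (algebraMap RA ℝ) Complex.ofRealHom x).symm

theorem fr_map (P Q : RA[X]) (x : ℝ) :
    fr (P.map iot) (Q.map iot) x = ((aeval x P / aeval x Q : ℝ) : ℂ) := by
  unfold fr
  rw [ev_map, ev_map, Complex.ofReal_div]

theorem root_alg {q : RA[X]} (hq : q ≠ 0) {x : ℝ} (hx : aeval x q = 0) :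
    IsAlgebraic ℚ (x : ℂ) := by
  have h1 : IsAlgebraic RA x := ⟨q, hq, hx⟩
  have h2 : IsAlgebraic ℚ x := h1.restrictScalars ℚ
  exact toC h2

theorem piece (m : ℕ) (p : Fin m → RA[X]) (P Q : RA[X])
    (hint : IntegrableOn (fun y : ℝ => aeval y P / aeval y Q) {y : ℝ | ∀ i, 0 ≤ aeval y (p i)}) :
    ((∫ y in {y : ℝ | ∀ i, 0 ≤ aeval y (p i)}, aeval y P / aeval y Q : ℝ) : ℂ) ∈ Lt := by
  classical
  let D : Set ℝ := {y : ℝ | ∀ i, 0 ≤ aeval y (p i)}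
  have hiot : Function.Injective iot := iot.injective
  have hfin : {x : ℝ | ∃ i, p i ≠ 0 ∧ aeval x (p i) = 0}.Finite := by
    have h1 : {x : ℝ | ∃ i, p i ≠ 0 ∧ aeval x (p i) = 0}
        = ⋃ i, {x : ℝ | p i ≠ 0 ∧ aeval x (p i) = 0} := by
      ext x; simp
    rw [h1]
    apply Set.finite_iUnion
    intro i
    by_cases h : p i = 0
    · simp [h]
    · refine (zeros_finite (g := (p i).map iot) ?_).subset ?_
      · exact (Polynomial.map_ne_zero_iff hiot).mpr h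
      · rintro x ⟨_, hx⟩
        change aeval (x : ℂ) ((p i).map iot) = 0
        rw [ev_map, hx, Complex.ofReal_zero]
  have e : ((∫ y in D, aeval y P / aeval y Q : ℝ) : ℂ)
      = ∫ y in D ∩ Set.univ, fr (P.map iot) (Q.map iot) y := by
    rw [Set.inter_univ, ← integral_complex_ofReal]
    simp only [fr_map]
  change ((∫ y in D, aeval y P / aeval y Q : ℝ) : ℂ) ∈ Lt
  rw [e]
  refine tame (P.map iot) (Q.map iot) D hfin.toFinset.card hfin.toFinset rfl ?_ Set.univ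
    (Or.inl rfl) ?_ ?_
  · intro z hz
    rw [Set.Finite.mem_toFinset] at hz
    obtain ⟨i, h1, h2⟩ := hz
    exact root_alg h1 h2
  · intro J' hJ' _ hdis
    by_contra hcon
    rw [not_or] at hcon
    obtain ⟨h1, h2⟩ := hcon
    obtain ⟨y, hyJ, hyD⟩ := Set.not_subset.mp h1
    obtain ⟨x, hxJ, hxD⟩ := Set.not_disjoint_iff.mp h2
    simp only [D, Set.mem_ofPred_eq, not_forall, not_le] at hyD
    obtain ⟨i, hi⟩ := hyD
    have hxi : 0 ≤ aeval x (p i) := hxD i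
    have hcont : ContinuousOn (fun t : ℝ => aeval t (p i)) J' :=
      (Polynomial.continuous_aeval (p i)).continuousOn
    obtain ⟨c, hcJ, hc⟩ := hJ'.intermediate_value hyJ hxJ hcont ⟨hi.le, hxi⟩
    apply hdis c _ hcJ
    rw [Set.Finite.mem_toFinset]
    refine ⟨i, ?_, hc⟩
    intro h0
    rw [h0, map_zero] at hi
    exact lt_irrefl _ hi
  · rw [Set.inter_univ]
    have h1 : (fr (P.map iot) (Q.map iot)) = fun y : ℝ => ((aeval y P / aeval y Q : ℝ) : ℂ) := by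
      funext y
      exact fr_map P Q y
    rw [h1]
    exact hint.ofReal

theorem OneVariablePeriod.mem {x : ℝ} (h : OneVariablePeriod x) : (x : ℂ) ∈ Lt := by
  obtain ⟨k, m, p, P, Q, hint, rfl⟩ := h
  rw [Complex.ofReal_sum]
  exact Lt.sum_mem (fun j _ => piece (m j) (p j) (P j) (Q j) (hint j))

/-- powers of a transcendental number are linearly independent over the algebraic numbers -/
theorem pow_indep {θ : ℝ} (hθ : Transcendental ℚ θ) {k1 k2 k3 : ℤ} (h12 : k1 ≠ k2)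
    (h13 : k1 ≠ k3) (h23 : k2 ≠ k3) {a b c : ℂ} (ha : IsAlgebraic ℚ a) (hb : IsAlgebraic ℚ b)
    (hc : IsAlgebraic ℚ c)
    (h : a * ((θ ^ k1 : ℝ) : ℂ) + b * ((θ ^ k2 : ℝ) : ℂ) + c * ((θ ^ k3 : ℝ) : ℂ) = 0) :
    a = 0 ∧ b = 0 ∧ c = 0 := by
  have hθC : ¬ IsAlgebraic ℚ (θ : ℂ) := fun h => hθ (ofC h)
  have hθ0 : θ ≠ 0 := by
    rintro rfl
    exact hθ isAlgebraic_zero
  have hθ0' : (θ : ℂ) ≠ 0 := by exact_mod_cast hθ0
  obtain ⟨M, n1, n2, n3, e1, e2, e3⟩ : ∃ M n1 n2 n3 : ℕ,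
      (n1 : ℤ) = k1 + M ∧ (n2 : ℤ) = k2 + M ∧ (n3 : ℤ) = k3 + M := by
    refine ⟨k1.natAbs + k2.natAbs + k3.natAbs, (k1 + (k1.natAbs + k2.natAbs + k3.natAbs)).toNat,
      (k2 + (k1.natAbs + k2.natAbs + k3.natAbs)).toNat,
      (k3 + (k1.natAbs + k2.natAbs + k3.natAbs)).toNat, ?_, ?_, ?_⟩ <;> omega
  let p : QB[X] := monomial n1 (⟨a, mem_QB.mpr ha⟩ : QB) + monomial n2 (⟨b, mem_QB.mpr hb⟩ : QB)
    + monomial n3 (⟨c, mem_QB.mpr hc⟩ : QB)
  have hp : aeval (θ : ℂ) p = 0 := by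
    have h1 : aeval (θ : ℂ) p = a * (θ : ℂ) ^ n1 + b * (θ : ℂ) ^ n2 + c * (θ : ℂ) ^ n3 := by
      simp only [p, map_add, aeval_monomial]
      rfl
    have z1 : (θ : ℂ) ^ n1 = ((θ ^ k1 : ℝ) : ℂ) * (θ : ℂ) ^ M := by
      rw [← zpow_natCast, e1, zpow_add₀ hθ0', zpow_natCast]; push_cast; rfl
    have z2 : (θ : ℂ) ^ n2 = ((θ ^ k2 : ℝ) : ℂ) * (θ : ℂ) ^ M := by
      rw [← zpow_natCast, e2, zpow_add₀ hθ0', zpow_natCast]; push_cast; rfl
    have z3 : (θ : ℂ) ^ n3 = ((θ ^ k3 : ℝ) : ℂ) * (θ : ℂ) ^ M := by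
      rw [← zpow_natCast, e3, zpow_add₀ hθ0', zpow_natCast]; push_cast; rfl
    rw [h1, z1, z2, z3]
    linear_combination (θ : ℂ) ^ M * h
  have hp0 : p = 0 := by
    by_contra hne
    have h1 : IsAlgebraic QB (θ : ℂ) := ⟨p, hne, hp⟩
    exact hθC (h1.restrictScalars ℚ)
  have n12 : n1 ≠ n2 := by omega
  have n13 : n1 ≠ n3 := by omega
  have n23 : n2 ≠ n3 := by omega
  have c1 := congrArg (fun q => q.coeff n1) hp0
  have c2 := congrArg (fun q => q.coeff n2) hp0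
  have c3 := congrArg (fun q => q.coeff n3) hp0
  simp only [p, coeff_add, coeff_monomial, coeff_zero] at c1 c2 c3
  simp only [n12, n13, n23, n12.symm, n13.symm, n23.symm, if_true, if_false, add_zero,
    zero_add] at c1 c2 c3
  exact ⟨congrArg Subtype.val c1, congrArg Subtype.val c2, congrArg Subtype.val c3⟩

theorem zpow_tr {θ : ℝ} (hθ : Transcendental ℚ θ) {d : ℤ} (hd : d ≠ 0) :
    ¬ IsAlgebraic ℚ (((θ ^ d : ℝ)) : ℂ) := by
  intro h
  have h1 : IsAlgebraic ℚ (θ ^ d) := ofC h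
  have h2 : IsAlgebraic ℚ (θ ^ d.natAbs) := by
    rcases Int.natAbs_eq d with h3 | h3
    · rw [h3, zpow_natCast] at h1; exact h1
    · rw [h3, zpow_neg, zpow_natCast] at h1
      have := h1.inv
      rwa [inv_inv] at this
  exact hθ (IsAlgebraic.of_pow (Int.natAbs_pos.mpr hd) h2)

/-- no three pairs with the same difference -/
theorem three {θ : ℝ} (hθ : Transcendental ℚ θ) {d k1 k2 k3 : ℤ} (hd : d ≠ 0) (h12 : k1 ≠ k2)
    (h13 : k1 ≠ k3) (h23 : k2 ≠ k3)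
    (m1 : ((θ ^ k1 : ℝ) : ℂ) ∈ Lt) (m2 : ((θ ^ k2 : ℝ) : ℂ) ∈ Lt) (m3 : ((θ ^ k3 : ℝ) : ℂ) ∈ Lt)
    (l1 : ((θ ^ (k1 + d) : ℝ) : ℂ) ∈ Lt) (l2 : ((θ ^ (k2 + d) : ℝ) : ℂ) ∈ Lt)
    (l3 : ((θ ^ (k3 + d) : ℝ) : ℂ) ∈ Lt) : False := by
  have hθ0 : θ ≠ 0 := by
    rintro rfl
    exact hθ isAlgebraic_zero
  have e : ∀ k : ℤ, ((θ ^ d : ℝ) : ℂ) * ((θ ^ k : ℝ) : ℂ) = ((θ ^ (k + d) : ℝ) : ℂ) := by
    intro k
    rw [zpow_add₀ hθ0]
    push_cast
    ring
  refine six' 1 ((θ ^ d : ℝ) : ℂ) ((θ ^ k1 : ℝ) : ℂ) ((θ ^ k2 : ℝ) : ℂ) ((θ ^ k3 : ℝ) : ℂ)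
    (fun a b ha hb h => lin_of_tr (zpow_tr hθ hd) ha hb (by linear_combination h))
    (fun a b c ha hb hc h => pow_indep hθ h12 h13 h23 ha hb hc h) ?_ ?_ ?_ ?_ ?_ ?_
  · rw [one_mul]; exact m1
  · rw [one_mul]; exact m2
  · rw [one_mul]; exact m3
  · rw [e]; exact l1
  · rw [e]; exact l2
  · rw [e]; exact l3

end Pool.Agent.H206R2.OneVar
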