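import Pool.Agent.H206R2.OneVar.D

/-! Counting. -/

set_option autoImplicit false

namespace Pool.Agent.H206R2.OneVar

theorem count_fin {K : Set ℤ}
    (h : ∀ d k1 k2 k3 : ℤ, d ≠ 0 → k1 ≠ k2 → k1 ≠ k3 → k2 ≠ k3 → k1 ∈ K → k2 ∈ K → k3 ∈ K →
      k1 + d ∈ K → k2 + d ∈ K → k3 + d ∈ K → False) (M : ℤ) (N : ℕ) (hN : 0 < N)
    (S : Finset ℤ) (hS : ∀ k ∈ S, k ∈ K ∧ M < k ∧ k ≤ M + N) :
    S.card * S.card - S.card ≤ 2 * (2 * N - 2) := by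
  classical
  rw [← Finset.offDiag_card]
  have hcard : ((Finset.Ioo (-(N : ℤ)) N).erase 0).card = 2 * N - 2 := by
    rw [Finset.card_erase_of_mem, Int.card_Ioo]
    · omega
    · rw [Finset.mem_Ioo]; omega
  rw [← hcard]
  refine Finset.card_le_mul_card_image_of_maps_to (f := fun q : ℤ × ℤ => q.2 - q.1) ?_ 2 ?_
  · intro q hq
    rw [Finset.mem_offDiag] at hq
    obtain ⟨h1, h2, h3⟩ := hq
    have a1 := hS _ h1
    have a2 := hS _ h2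
    rw [Finset.mem_erase, Finset.mem_Ioo]
    omega
  · intro d hd
    rw [Finset.mem_erase] at hd
    by_contra hcon
    rw [not_le, Finset.two_lt_card] at hcon
    obtain ⟨q1, m1, q2, m2, q3, m3, n12, n13, n23⟩ := hcon
    rw [Finset.mem_filter, Finset.mem_offDiag] at m1 m2 m3
    obtain ⟨x1, y1⟩ := q1
    obtain ⟨x2, y2⟩ := q2
    obtain ⟨x3, y3⟩ := q3
    simp only [ne_eq, Prod.mk.injEq, not_and] at n12 n13 n23 m1 m2 m3
    obtain ⟨⟨a1, b1, c1⟩, e1⟩ := m1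
    obtain ⟨⟨a2, b2, c2⟩, e2⟩ := m2
    obtain ⟨⟨a3, b3, c3⟩, e3⟩ := m3
    have f1 : y1 = x1 + d := by omega
    have f2 : y2 = x2 + d := by omega
    have f3 : y3 = x3 + d := by omega
    subst f1 f2 f3
    refine h d x1 x2 x3 hd.1 ?_ ?_ ?_ (hS _ a1).1 (hS _ a2).1 (hS _ a3).1 (hS _ b1).1
      (hS _ b2).1 (hS _ b3).1
    · intro h0; exact n12 h0 (by rw [h0])
    · intro h0; exact n13 h0 (by rw [h0])
    · intro h0; exact n23 h0 (by rw [h0])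

theorem count {K : Set ℤ}
    (h : ∀ d k1 k2 k3 : ℤ, d ≠ 0 → k1 ≠ k2 → k1 ≠ k3 → k2 ≠ k3 → k1 ∈ K → k2 ∈ K → k3 ∈ K →
      k1 + d ∈ K → k2 + d ∈ K → k3 + d ∈ K → False) (M : ℤ) (N : ℕ) :
    (K ∩ Set.Ioc M (M + N)).Finite ∧ ((K ∩ Set.Ioc M (M + N)).ncard : ℝ) ≤ 2 * √N + 1 := by
  classical
  have hfin : (K ∩ Set.Ioc M (M + N)).Finite := (Set.finite_Ioc _ _).subset Set.inter_subset_right
  refine ⟨hfin, ?_⟩
  rcases Nat.eq_zero_or_pos N with hN | hN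
  · subst hN
    have : K ∩ Set.Ioc M (M + ((0 : ℕ) : ℤ)) = ∅ := by
      simp
    rw [this]
    simp
  have h1 := count_fin h M N hN hfin.toFinset (by
    intro k hk
    rw [Set.Finite.mem_toFinset] at hk
    exact ⟨hk.1, hk.2.1, hk.2.2⟩)
  rw [← Set.ncard_eq_toFinset_card _ hfin] at h1
  set s := (K ∩ Set.Ioc M (M + N)).ncard
  have h2 : s * s ≤ 4 * N + s := by omega
  have h3 : (s : ℝ) * s ≤ 4 * N + s := by exact_mod_cast h2
  have h4 : (√(N : ℝ)) ^ 2 = N := Real.sq_sqrt (Nat.cast_nonneg N)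
  have h5 : 0 ≤ √(N : ℝ) := Real.sqrt_nonneg _
  nlinarith

theorem encard_le {K : Set ℤ}
    (h : ∀ d k1 k2 k3 : ℤ, d ≠ 0 → k1 ≠ k2 → k1 ≠ k3 → k2 ≠ k3 → k1 ∈ K → k2 ∈ K → k3 ∈ K →
      k1 + d ∈ K → k2 + d ∈ K → k3 + d ∈ K → False) {d : ℤ} (hd : d ≠ 0) :
    {k : ℤ | k ∈ K ∧ k + d ∈ K}.encard ≤ 2 := by
  by_contra hcon
  rw [not_le] at hcon
  have h3 : (3 : ℕ∞) ≤ {k : ℤ | k ∈ K ∧ k + d ∈ K}.encard := by
    have := Order.add_one_le_of_lt hcon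
    norm_num at this
    exact this
  obtain ⟨t, hts, ht⟩ := Set.exists_subset_encard_eq h3
  obtain ⟨a, b, c, hab, hac, hbc, rfl⟩ := Set.encard_eq_three.mp ht
  have ha := hts (show a ∈ ({a, b, c} : Set ℤ) by simp)
  have hb := hts (show b ∈ ({a, b, c} : Set ℤ) by simp)
  have hc := hts (show c ∈ ({a, b, c} : Set ℤ) by simp)
  exact h d a b c hd hab hac hbc ha.1 hb.1 hc.1 ha.2 hb.2 hc.2

end Pool.Agent.H206R2.OneVar
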