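import Pool.Agent.H206R2.Tower.Six

/-! `1 / (θ - α)` in the space of linear forms in `1` and logarithms. -/

set_option autoImplicit false

namespace Pool.Agent.H206R2.OneVar

open Pool.Agent.H301R2.SSE Pool.Agent.H301R2.Nine Pool.Agent.H206R2.Tower

theorem sub_ne {θ α : ℂ} (hθ : ¬ IsAlgebraic ℚ θ) (hα : IsAlgebraic ℚ α) : θ - α ≠ 0 := by
  intro h
  apply hθ
  rw [sub_eq_zero.mp h]
  exact hα

theorem mul_pole {θ α : ℂ} (hθ : ¬ IsAlgebraic ℚ θ) (hα : IsAlgebraic ℚ α)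
    (h : 1 / (θ - α) ∈ Lt) : θ * (1 / (θ - α)) ∈ Lt := by
  have h0 := sub_ne hθ hα
  have e : θ * (1 / (θ - α)) = 1 + α * (1 / (θ - α)) := by
    field_simp
    ring
  rw [e]
  exact Lt.add_mem Lt_one (Lt_mul hα h)

/-- three poles -/
theorem poles3 {θ α1 α2 α3 : ℂ} (hθ : ¬ IsAlgebraic ℚ θ) (h1 : IsAlgebraic ℚ α1)
    (h2 : IsAlgebraic ℚ α2) (h3 : IsAlgebraic ℚ α3) (h12 : α1 ≠ α2) (h13 : α1 ≠ α3)
    (h23 : α2 ≠ α3) (m1 : 1 / (θ - α1) ∈ Lt) (m2 : 1 / (θ - α2) ∈ Lt)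
    (m3 : 1 / (θ - α3) ∈ Lt) : False := by
  have s1 := sub_ne hθ h1
  have s2 := sub_ne hθ h2
  have s3 := sub_ne hθ h3
  refine six' 1 θ (1 / (θ - α1)) (1 / (θ - α2)) (1 / (θ - α3))
    (fun a b ha hb h => lin_of_tr hθ ha hb (by linear_combination h)) ?_
    (by rw [one_mul]; exact m1) (by rw [one_mul]; exact m2) (by rw [one_mul]; exact m3)
    (mul_pole hθ h1 m1) (mul_pole hθ h2 m2) (mul_pole hθ h3 m3)
  intro a b c ha hb hc h
  have key : (a * α2 * α3 + b * α1 * α3 + c * α1 * α2)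
      + (-(a * (α2 + α3) + b * (α1 + α3) + c * (α1 + α2))) * θ + (a + b + c) * θ ^ 2 = 0 := by
    have : (θ - α1) * (θ - α2) * (θ - α3) * (a * (1 / (θ - α1)) + b * (1 / (θ - α2))
        + c * (1 / (θ - α3))) = (a * α2 * α3 + b * α1 * α3 + c * α1 * α2)
      + (-(a * (α2 + α3) + b * (α1 + α3) + c * (α1 + α2))) * θ + (a + b + c) * θ ^ 2 := by
      field_simp
      ring
    rw [← this, h, mul_zero]
  obtain ⟨k0, k1, k2⟩ := quad hθ
    ((((ha.mul h2).mul h3).add ((hb.mul h1).mul h3)).add ((hc.mul h1).mul h2))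
    ((((ha.mul (h2.add h3)).add (hb.mul (h1.add h3))).add (hc.mul (h1.add h2))).neg)
    ((ha.add hb).add hc) key
  have a0 : a * ((α1 - α2) * (α1 - α3)) = 0 := by
    linear_combination k0 + α1 * k1 + α1 ^ 2 * k2
  have b0 : b * ((α2 - α1) * (α2 - α3)) = 0 := by
    linear_combination k0 + α2 * k1 + α2 ^ 2 * k2
  have c0 : c * ((α3 - α1) * (α3 - α2)) = 0 := by
    linear_combination k0 + α3 * k1 + α3 ^ 2 * k2
  refine ⟨?_, ?_, ?_⟩
  · exact (mul_eq_zero.mp a0).resolve_right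
      (mul_ne_zero (sub_ne_zero.mpr h12) (sub_ne_zero.mpr h13))
  · exact (mul_eq_zero.mp b0).resolve_right
      (mul_ne_zero (sub_ne_zero.mpr h12.symm) (sub_ne_zero.mpr h23))
  · exact (mul_eq_zero.mp c0).resolve_right
      (mul_ne_zero (sub_ne_zero.mpr h13.symm) (sub_ne_zero.mpr h23.symm))

/-- `θ` and two poles -/
theorem poles2 {θ α1 α2 : ℂ} (hθ : ¬ IsAlgebraic ℚ θ) (h1 : IsAlgebraic ℚ α1)
    (h2 : IsAlgebraic ℚ α2) (h12 : α1 ≠ α2) (m0 : θ ∈ Lt) (m1 : 1 / (θ - α1) ∈ Lt)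
    (m2 : 1 / (θ - α2) ∈ Lt) : False := by
  have s1 := sub_ne hθ h1
  have s2 := sub_ne hθ h2
  refine six' 1 θ 1 (1 / (θ - α1)) (1 / (θ - α2))
    (fun a b ha hb h => lin_of_tr hθ ha hb (by linear_combination h)) ?_
    (by rw [one_mul]; exact Lt_one) (by rw [one_mul]; exact m1) (by rw [one_mul]; exact m2)
    (by rw [mul_one]; exact m0) (mul_pole hθ h1 m1) (mul_pole hθ h2 m2)
  intro a b c ha hb hc h
  have key : (a * α1 * α2 - b * α2 - c * α1) + (-(a * (α1 + α2)) + b + c) * θ + a * θ ^ 2 = 0 := by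
    have : (θ - α1) * (θ - α2) * (a * 1 + b * (1 / (θ - α1)) + c * (1 / (θ - α2)))
        = (a * α1 * α2 - b * α2 - c * α1) + (-(a * (α1 + α2)) + b + c) * θ + a * θ ^ 2 := by
      field_simp
      ring
    rw [← this, h, mul_zero]
  obtain ⟨k0, k1, k2⟩ := quad hθ
    ((((ha.mul h1).mul h2).sub (hb.mul h2)).sub (hc.mul h1))
    ((((ha.mul (h1.add h2)).neg).add hb).add hc) ha key
  subst k2
  have b0 : b * (α1 - α2) = 0 := by linear_combination k0 + α1 * k1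
  have c0 : c * (α2 - α1) = 0 := by linear_combination k0 + α2 * k1
  refine ⟨rfl, ?_, ?_⟩
  · exact (mul_eq_zero.mp b0).resolve_right (sub_ne_zero.mpr h12)
  · exact (mul_eq_zero.mp c0).resolve_right (sub_ne_zero.mpr h12.symm)

/-- removing the algebraic coefficients -/
theorem strip {x a b : ℂ} (ha : IsAlgebraic ℚ a) (hb : IsAlgebraic ℚ b) (hb0 : b ≠ 0)
    (h : a + b * x ∈ Lt) : x ∈ Lt := by
  have h1 := Lt_mul hb.inv (Lt.sub_mem h (Lt_alg ha))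
  have e : b⁻¹ * (a + b * x - a) = x := by
    rw [add_sub_cancel_left, inv_mul_cancel_left₀ hb0]
  rwa [e] at h1

end Pool.Agent.H206R2.OneVar
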